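import Pool.Agent.Helper7.AF.RigidDefs

/-!
M1e (finite values).
-/

open Filter Topology

set_option autoImplicit false

namespace Pool.Agent.Helper7.AF

open Pool.Agent.GPC

namespace FinVal

variable {g : ℕ}

/-- the functions which become entire after multiplication by a power of `h` -/
def Cl (h f : (Fin g → ℂ) → ℂ) : Prop :=
  ∃ (n : ℕ) (E : (Fin g → ℂ) → ℂ), AnalyticOnNhd ℂ E Set.univ ∧ ∀ z, h z ≠ 0 → E z = h z ^ n * f z

theorem Cl.const {h : (Fin g → ℂ) → ℂ} (c : ℂ) : Cl h (fun _ => c) :=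
  ⟨0, fun _ => c, analyticOnNhd_const, fun z _ => by simp⟩

theorem Cl.add {h f f' : (Fin g → ℂ) → ℂ} (hh : AnalyticOnNhd ℂ h Set.univ) (hf : Cl h f)
    (hf' : Cl h f') : Cl h (fun z => f z + f' z) := by
  obtain ⟨n, E, hE, h1⟩ := hf
  obtain ⟨n', E', hE', h1'⟩ := hf'
  refine ⟨n + n', fun z => h z ^ n' * E z + h z ^ n * E' z,
    ((hh.pow n').mul hE).add ((hh.pow n).mul hE'), fun z hz => ?_⟩
  simp only
  rw [h1 z hz, h1' z hz]
  ring

theorem Cl.mul {h f f' : (Fin g → ℂ) → ℂ} (hf : Cl h f)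
    (hf' : Cl h f') : Cl h (fun z => f z * f' z) := by
  obtain ⟨n, E, hE, h1⟩ := hf
  obtain ⟨n', E', hE', h1'⟩ := hf'
  refine ⟨n + n', fun z => E z * E' z, hE.mul hE', fun z hz => ?_⟩
  simp only
  rw [h1 z hz, h1' z hz]
  ring

theorem Cl.pow {h f : (Fin g → ℂ) → ℂ} (hf : Cl h f) (m : ℕ) : Cl h (fun z => f z ^ m) := by
  induction m with
  | zero => simpa using Cl.const 1
  | succ m ih => simpa [pow_succ] using ih.mul hf

theorem Cl.eval {σ : Type} {h : (Fin g → ℂ) → ℂ} (hh : AnalyticOnNhd ℂ h Set.univ)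
    (x : σ → (Fin g → ℂ) → ℂ) (hx : ∀ a, Cl h (x a)) (R : MvPolynomial σ ℂ) :
    Cl h (fun z => MvPolynomial.eval (fun a => x a z) R) := by
  induction R using MvPolynomial.induction_on with
  | C c => simpa using Cl.const c
  | add P Q hP hQ => simpa using hP.add hh hQ
  | mul_X P a hP => simpa using hP.mul (hx a)

theorem Cl.ev2 {k : ℕ} {h : (Fin g → ℂ) → ℂ} (hh : AnalyticOnNhd ℂ h Set.univ)
    (x : Fin k → (Fin g → ℂ) → ℂ) (hx : ∀ a, Cl h (x a)) (y : (Fin g → ℂ) → ℂ) (hy : Cl h y)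
    (P : Polynomial (MvPolynomial (Fin k) ℂ)) :
    Cl h (fun z => Pool.Agent.Helper7.AF.ev2 P (fun a => x a z) (y z)) := by
  unfold Pool.Agent.Helper7.AF.ev2
  induction P using Polynomial.induction_on' with
  | add P Q hP hQ => simpa using hP.add hh hQ
  | monomial m R =>
    simpa using (Cl.eval hh x hx R).mul (hy.pow m)

/-- identity theorem -/
theorem eq_zero_of_eventually {E : (Fin g → ℂ) → ℂ} (hE : AnalyticOnNhd ℂ E Set.univ)
    (z0 : Fin g → ℂ) (h : ∀ᶠ z in 𝓝 z0, E z = 0) (z : Fin g → ℂ) : E z = 0 :=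
  hE.eqOn_zero_of_preconnected_of_eventuallyEq_zero isPreconnected_univ (Set.mem_univ z0) h
    (Set.mem_univ z)

/-- the set where an entire function does not vanish is dense -/
theorem dense_ne_zero {E : (Fin g → ℂ) → ℂ} (hE : AnalyticOnNhd ℂ E Set.univ)
    (z1 : Fin g → ℂ) (h1 : E z1 ≠ 0) : Dense {z | E z ≠ 0} := by
  intro z
  by_contra hz
  rw [mem_closure_iff_nhds] at hz
  push Not at hz
  obtain ⟨t, ht, hte⟩ := hz
  apply h1
  refine eq_zero_of_eventually hE z ?_ z1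
  filter_upwards [ht] with w hw
  by_contra hne
  have : w ∈ t ∩ {z | E z ≠ 0} := ⟨hw, hne⟩
  rw [hte] at this
  exact this

theorem isOpen_ne_zero {E : (Fin g → ℂ) → ℂ} (hE : AnalyticOnNhd ℂ E Set.univ) :
    IsOpen {z | E z ≠ 0} := by
  have hc : Continuous E := by
    rw [← continuousOn_univ]
    exact hE.continuousOn
  exact isOpen_ne_fun hc continuous_const

/-- functions of the class which vanish near zero vanish where `h` does not -/
theorem Cl.eq_zero {h f : (Fin g → ℂ) → ℂ} (hh : AnalyticOnNhd ℂ h Set.univ) (hf : Cl h f)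
    (h0 : h 0 ≠ 0) (hev : ∀ᶠ z in 𝓝 0, f z = 0) (z : Fin g → ℂ) (hz : h z ≠ 0) : f z = 0 := by
  obtain ⟨n, E, hE, h1⟩ := hf
  have hE0 : ∀ᶠ z in 𝓝 0, E z = 0 := by
    have hne : ∀ᶠ z in 𝓝 0, h z ≠ 0 := (isOpen_ne_zero hh).mem_nhds h0
    filter_upwards [hev, hne] with w hw hw'
    rw [h1 w hw', hw, mul_zero]
  have h2 := eq_zero_of_eventually hE 0 hE0 z
  rw [h1 z hz] at h2
  exact (mul_eq_zero.1 h2).resolve_left (pow_ne_zero _ hz)

theorem countable_lattice (A : AbVar) : Countable A.Λ := by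
  haveI := A.lattice.discrete
  exact TopologicalSpace.separableSpace_iff_countable.1 inferInstance

theorem theta_ne_zero (A : AbVar) (i : Fin (A.N + 1)) (z l : Fin A.g → ℂ) (hl : l ∈ A.Λ)
    (hz : A.θ i z ≠ 0) : A.θ i (z + l) ≠ 0 := by
  rw [(A.theta i).quasi l hl z]
  refine mul_ne_zero (mul_ne_zero ?_ (Complex.exp_ne_zero _)) hz
  intro h
  have h1 := A.appellHumbert.norm l hl
  rw [h, norm_zero] at h1
  exact zero_ne_one h1

theorem theta_quot (A : AbVar) (i0 i : Fin (A.N + 1)) (z l : Fin A.g → ℂ) (hl : l ∈ A.Λ) :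
    A.θ i (z + l) / A.θ i0 (z + l) = A.θ i z / A.θ i0 z := by
  rw [(A.theta i).quasi l hl z, (A.theta i0).quasi l hl z]
  refine mul_div_mul_left _ _ (mul_ne_zero ?_ (Complex.exp_ne_zero _))
  intro h
  have h1 := A.appellHumbert.norm l hl
  rw [h, norm_zero] at h1
  exact zero_ne_one h1

end FinVal

open FinVal

/-- M1e (finite values): quotients of entire functions which are algebraic over the periodic
functions take only finitely many values on a suitable coset of the lattice. -/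
theorem finite_values (A : AbVar) (i0 : Fin (A.N + 1)) (h0 : A.θ i0 0 ≠ 0)
    (s : Fin A.g → Fin (A.N + 1)) (hs : AlgInd A i0 s) {J : Type} [Finite J]
    (G D : J → (Fin A.g → ℂ) → ℂ) (hG : ∀ j, AnalyticOnNhd ℂ (G j) Set.univ)
    (hD : ∀ j, AnalyticOnNhd ℂ (D j) Set.univ) (hD0 : ∀ j, D j 0 ≠ 0)
    (P : J → Polynomial (MvPolynomial (Fin A.g) ℂ)) (hP : ∀ j, P j ≠ 0)
    (h : ∀ j, ∀ᶠ z in 𝓝 0, ev2 (P j) (fun a => A.θ (s a) z / A.θ i0 z) (G j z / D j z) = 0) :
    ∃ z0, (∀ l ∈ A.Λ, ∀ j, D j (z0 + l) ≠ 0) ∧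
      ∃ T : Finset ℂ, ∀ l ∈ A.Λ, ∀ j, G j (z0 + l) / D j (z0 + l) ∈ T := by
  classical
  haveI := countable_lattice A
  haveI := Fintype.ofFinite J
  have hθ : ∀ i, AnalyticOnNhd ℂ (A.θ i) Set.univ := fun i => (A.theta i).entire
  -- the relations hold everywhere
  have hrel : ∀ j z, A.θ i0 z ≠ 0 → D j z ≠ 0 →
      ev2 (P j) (fun a => A.θ (s a) z / A.θ i0 z) (G j z / D j z) = 0 := by
    intro j z hz1 hz2
    have hh : AnalyticOnNhd ℂ (fun z => A.θ i0 z * D j z) Set.univ := (hθ i0).mul (hD j)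
    have hx : ∀ a, Cl (fun z => A.θ i0 z * D j z) (fun z => A.θ (s a) z / A.θ i0 z) := by
      intro a
      refine ⟨1, fun z => A.θ (s a) z * D j z, (hθ _).mul (hD j), fun z hz => ?_⟩
      have := left_ne_zero_of_mul hz
      simp only
      field_simp
    have hy : Cl (fun z => A.θ i0 z * D j z) (fun z => G j z / D j z) := by
      refine ⟨1, fun z => A.θ i0 z * G j z, (hθ _).mul (hG j), fun z hz => ?_⟩
      have := right_ne_zero_of_mul hz
      simp only
      field_simp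
    exact (Cl.ev2 hh _ hx _ hy (P j)).eq_zero hh (mul_ne_zero h0 (hD0 j)) (h j) z
      (mul_ne_zero hz1 hz2)
  -- the leading coefficients
  have hlc : ∀ j, ∃ E : (Fin A.g → ℂ) → ℂ, AnalyticOnNhd ℂ E Set.univ ∧ (∃ z, E z ≠ 0) ∧
      ∀ z, A.θ i0 z ≠ 0 → E z ≠ 0 →
        MvPolynomial.eval (fun a => A.θ (s a) z / A.θ i0 z) (P j).leadingCoeff ≠ 0 := by
    intro j
    have hx : ∀ a, Cl (A.θ i0) (fun z => A.θ (s a) z / A.θ i0 z) := by
      intro a
      refine ⟨1, fun z => A.θ (s a) z, hθ _, fun z hz => ?_⟩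
      field_simp
    obtain ⟨n, E, hE, h1⟩ := Cl.eval (hθ i0) _ hx (P j).leadingCoeff
    refine ⟨E, hE, ?_, ?_⟩
    · obtain ⟨z, hz, hz'⟩ := hs _ (Polynomial.leadingCoeff_ne_zero.2 (hP j))
      refine ⟨z, ?_⟩
      rw [h1 z hz]
      exact mul_ne_zero (pow_ne_zero _ hz) hz'
    · intro z hz hEz
      rw [h1 z hz] at hEz
      exact right_ne_zero_of_mul hEz
  choose E hE hEne hElc using hlc
  -- Baire
  let F : (A.Λ × J) ⊕ Option J → Set (Fin A.g → ℂ)
    | .inl (l, j) => {z | D j (z + l) ≠ 0}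
    | .inr none => {z | A.θ i0 z ≠ 0}
    | .inr (some j) => {z | E j z ≠ 0}
  have hshift : ∀ (j : J) (l : Fin A.g → ℂ),
      AnalyticOnNhd ℂ (fun z => D j (z + l)) Set.univ := by
    intro j l
    exact (hD j).comp (analyticOnNhd_id.add analyticOnNhd_const) (fun _ _ => Set.mem_univ _)
  have hopen : ∀ i, IsOpen (F i) := by
    rintro (⟨l, j⟩ | _ | j)
    · exact isOpen_ne_zero (hshift j l)
    · exact isOpen_ne_zero (hθ i0)
    · exact isOpen_ne_zero (hE j)
  have hdense : ∀ i, Dense (F i) := by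
    rintro (⟨l, j⟩ | _ | j)
    · refine dense_ne_zero (hshift j l) (-l) ?_
      simpa using hD0 j
    · exact dense_ne_zero (hθ i0) 0 h0
    · obtain ⟨z, hz⟩ := hEne j
      exact dense_ne_zero (hE j) z hz
  obtain ⟨z0, hz0⟩ := (dense_iInter_of_isOpen hopen hdense).nonempty
  rw [Set.mem_iInter] at hz0
  have hz1 : ∀ l ∈ A.Λ, ∀ j, D j (z0 + l) ≠ 0 := fun l hl j => hz0 (.inl (⟨l, hl⟩, j))
  have hz2 : A.θ i0 z0 ≠ 0 := hz0 (.inr none)
  have hz3 : ∀ j, E j z0 ≠ 0 := fun j => hz0 (.inr (some j))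
  refine ⟨z0, hz1, Finset.univ.biUnion fun j =>
    ((P j).map (MvPolynomial.eval fun a => A.θ (s a) z0 / A.θ i0 z0)).roots.toFinset, ?_⟩
  intro l hl j
  rw [Finset.mem_biUnion]
  refine ⟨j, Finset.mem_univ _, ?_⟩
  rw [Multiset.mem_toFinset, Polynomial.mem_roots']
  refine ⟨?_, ?_⟩
  · intro h1
    have h2 := hElc j z0 hz2 (hz3 j)
    apply h2
    have h3 := congrArg (fun q => Polynomial.coeff q (P j).natDegree) h1
    simpa [Polynomial.coeff_map] using h3
  · have h4 := hrel j (z0 + l) (theta_ne_zero A i0 z0 l hl hz2) (hz1 l hl j)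
    simp only [theta_quot A i0 _ z0 l hl] at h4
    exact h4

end Pool.Agent.Helper7.AF
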